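import Mathlib

/-!
# GL-A: a polynomial with all its zeros in an interval where it is small

If `t_j ∈ [0, L]` and `∏ |y - t_j| ≤ A` on `[0, L]`, then `∑ t_j ≤ 2 N A^(1/N)`.

PROOF. `y = (L/2)(1 + Re ζ)`, `|ζ| = 1`: `|Q(ζ)| = (4/L)^N ∏ |y - t_j|` for `Q(ζ) = ∏ (1 - ζ b_j)(1 - ζ conj b_j)`,
`Re b_j = 2 t_j / L - 1`, `|b_j| = 1`. Apply the Schwarz lemma (Borel-Caratheodory) to `log Q` on the unit disc.
-/

set_option autoImplicit false

open Complex Metric Set
open scoped Real ComplexConjugate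

noncomputable section

namespace Pool.Agent.H88.GL

theorem schwarz_half {h : ℂ → ℂ} (hd : DifferentiableOn ℂ h (ball 0 1)) (h0 : h 0 = 0) {K : ℝ}
    (hK : ∀ z ∈ ball (0:ℂ) 1, (h z).re < K) : ‖deriv h 0‖ ≤ 2 * K := by
  have hK0 : 0 < K := by
    have := hK 0 (mem_ball_self one_pos)
    rw [h0] at this
    simpa using this
  have hne : ∀ z ∈ ball (0:ℂ) 1, (2 * (K:ℂ) - h z : ℂ) ≠ 0 := by
    intro z hz h1
    have h2 := congrArg Complex.re h1
    simp at h2
    have := hK z hz
    linarith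
  have hF : DifferentiableOn ℂ (fun z => h z / (2 * (K:ℂ) - h z)) (ball 0 1) :=
    hd.div ((differentiableOn_const _).sub hd) hne
  have hmap : MapsTo (fun z => h z / (2 * (K:ℂ) - h z)) (ball 0 1) (ball 0 1) := by
    intro z hz
    simp only [mem_ball_zero_iff, norm_div]
    rw [div_lt_one (norm_pos_iff.2 (hne z hz))]
    have h1 := hK z hz
    have h2 : ‖h z‖ ^ 2 < ‖2 * (K:ℂ) - h z‖ ^ 2 := by
      rw [Complex.sq_norm, Complex.sq_norm, normSq_apply, normSq_apply]
      simp
      nlinarith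
    exact lt_of_pow_lt_pow_left₀ 2 (norm_nonneg _) h2
  have hF0 : (fun z => h z / (2 * (K:ℂ) - h z)) 0 = 0 := by simp [h0]
  have hmap2 : MapsTo (fun z => h z / (2 * (K:ℂ) - h z)) (ball 0 1)
      (closedBall ((fun z => h z / (2 * (K:ℂ) - h z)) 0) 1) := by
    rw [hF0]
    exact hmap.mono_right ball_subset_closedBall
  have h1 := Complex.norm_deriv_le_one_of_mapsTo_ball hF hmap2 one_pos
  have hda : DifferentiableAt ℂ h 0 := hd.differentiableAt (ball_mem_nhds _ one_pos)
  have hK2 : (2 * (K:ℂ)) ≠ 0 := by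
    have : (K:ℂ) ≠ 0 := by exact_mod_cast hK0.ne'
    simpa using this
  have h2 : HasDerivAt (fun z => h z / (2 * (K:ℂ) - h z)) (deriv h 0 / (2 * K)) 0 := by
    have := hda.hasDerivAt.div ((hasDerivAt_const (0:ℂ) (2 * (K:ℂ))).sub hda.hasDerivAt)
      (by simp only [Pi.sub_apply, h0, sub_zero]; exact hK2)
    refine this.congr_deriv ?_
    simp only [Pi.sub_apply, h0, sub_zero, zero_mul]
    rw [pow_two, mul_div_mul_right _ _ hK2]
  rw [h2.deriv, norm_div] at h1
  have h3 : ‖(2 * (K:ℂ))‖ = 2 * K := by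
    rw [norm_mul, Complex.norm_real, Real.norm_of_nonneg hK0.le]
    norm_num
  rw [h3, div_le_one (by linarith)] at h1
  exact h1

theorem g1 {N : ℕ} (hN : 0 < N) (t : Fin N → ℝ) {L A : ℝ} (hL : 0 ≤ L)
    (ht : ∀ j, 0 ≤ t j ∧ t j ≤ L) (hA0 : 0 < A) (hA : ∀ y ∈ Icc (0:ℝ) L, ∏ j, |y - t j| ≤ A) :
    ∑ j, t j ≤ 2 * N * A ^ (1 / (N:ℝ)) := by
  have hN' : (0:ℝ) < N := by exact_mod_cast hN
  have hrhs : 0 < A ^ (1 / (N:ℝ)) := Real.rpow_pos_of_pos hA0 _
  rcases hL.eq_or_lt with hL0 | hL0
  · have : ∀ j, t j = 0 := fun j => le_antisymm (hL0 ▸ (ht j).2) (ht j).1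
    simp only [this, Finset.sum_const_zero]
    positivity
  -- the points on the circle
  set b : Fin N → ℂ := fun j => Complex.exp (Real.arccos (2 * t j / L - 1) * I) with hb
  have hbn : ∀ j, ‖b j‖ = 1 := fun j => by rw [hb]; exact Complex.norm_exp_ofReal_mul_I _
  have hbr : ∀ j, (b j).re = 2 * t j / L - 1 := by
    intro j
    rw [hb]
    simp only [Complex.exp_ofReal_mul_I_re]
    apply Real.cos_arccos
    · have : 0 ≤ 2 * t j / L := div_nonneg (by linarith [(ht j).1]) hL
      linarith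
    · have : 2 * t j / L ≤ 2 := by
        rw [div_le_iff₀ hL0]
        linarith [(ht j).2]
      linarith
  set Q : ℂ → ℂ := fun z => ∏ j, (1 - z * b j) * (1 - z * conj (b j)) with hQ
  set h : ℂ → ℂ := fun z => ∑ j, (Complex.log (1 - z * b j) + Complex.log (1 - z * conj (b j))) with hh
  have hlt : ∀ z ∈ ball (0:ℂ) 1, ∀ c : ℂ, ‖c‖ = 1 → 1 - z * c ∈ slitPlane := by
    intro z hz c hc
    have : ‖-(z * c)‖ < 1 := by
      rw [norm_neg, norm_mul, hc, mul_one]
      simpa using hz
    have h1 := Complex.mem_slitPlane_of_norm_lt_one this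
    rwa [← sub_eq_add_neg] at h1
  have hcn : ∀ j, ‖conj (b j)‖ = 1 := fun j => by rw [RCLike.norm_conj, hbn]
  have hd : DifferentiableOn ℂ h (ball 0 1) := by
    refine DifferentiableOn.fun_sum fun j _ => ?_
    refine DifferentiableOn.add ?_ ?_
    · refine DifferentiableOn.clog (by fun_prop) fun z hz => hlt z hz _ (hbn j)
    · refine DifferentiableOn.clog (by fun_prop) fun z hz => hlt z hz _ (hcn j)
  have h0 : h 0 = 0 := by simp [hh]
  have hre : ∀ z ∈ ball (0:ℂ) 1, (h z).re = Real.log ‖Q z‖ := by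
    intro z hz
    have hne : ∀ c : ℂ, ‖c‖ = 1 → 1 - z * c ≠ 0 := fun c hc => slitPlane_ne_zero (hlt z hz c hc)
    rw [hh, hQ]
    simp only [Complex.re_sum, Complex.add_re, Complex.log_re, norm_prod, norm_mul]
    rw [Real.log_prod fun j _ => mul_ne_zero (norm_ne_zero_iff.2 (hne _ (hbn j))) (norm_ne_zero_iff.2 (hne _ (hcn j)))]
    refine Finset.sum_congr rfl fun j _ => ?_
    rw [Real.log_mul (norm_ne_zero_iff.2 (hne _ (hbn j))) (norm_ne_zero_iff.2 (hne _ (hcn j)))]
  -- bound on the circle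
  set A' : ℝ := (4 / L) ^ N * A with hA'
  have hA'0 : 0 < A' := by positivity
  have hQb : ∀ z ∈ frontier (ball (0:ℂ) 1), ‖Q z‖ ≤ A' := by
    intro z hz
    rw [frontier_ball (0:ℂ) one_ne_zero, mem_sphere_zero_iff_norm] at hz
    have hre1 : |z.re| ≤ 1 := hz ▸ Complex.abs_re_le_norm z
    have hy : L / 2 * (1 + z.re) ∈ Icc (0:ℝ) L := by
      rw [abs_le] at hre1
      constructor
      · have : 0 ≤ 1 + z.re := by linarith
        positivity
      · nlinarith
    have h1 := hA _ hy
    have hfac : ∀ j, ‖(1 - z * b j) * (1 - z * conj (b j))‖ = 4 / L * |L / 2 * (1 + z.re) - t j| := by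
      intro j
      have hzz : z.re * z.re + z.im * z.im = 1 := by
        have := Complex.sq_norm z
        rw [hz, normSq_apply] at this
        linarith
      have hbb : (b j).re * (b j).re + (b j).im * (b j).im = 1 := by
        have := Complex.sq_norm (b j)
        rw [hbn, normSq_apply] at this
        linarith
      have h2 : (1 - z * b j) * (1 - z * conj (b j)) = z * (2 * (z.re - (b j).re : ℝ) : ℂ) := by
        apply Complex.ext
        · simp
          linear_combination (z.re * z.re - z.im * z.im) * hbb - hzz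
        · simp
          linear_combination (2 * z.re * z.im) * hbb
      rw [h2, norm_mul, hz, one_mul, norm_mul, Complex.norm_real, Real.norm_eq_abs, hbr]
      have h3 : L / 2 * (1 + z.re) - t j = L / 2 * (z.re - (2 * t j / L - 1)) := by
        field_simp
        ring
      rw [h3, abs_mul, abs_of_pos (by linarith : 0 < L / 2)]
      have h4 : ‖(2:ℂ)‖ = 2 := by norm_num
      rw [h4]
      field_simp
      ring
    rw [hQ]
    simp only [norm_prod]
    rw [Finset.prod_congr rfl fun j _ => hfac j, Finset.prod_mul_distrib, Finset.prod_const]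
    simp only [Finset.card_univ, Fintype.card_fin]
    exact mul_le_mul_of_nonneg_left h1 (by positivity)
  have hQb' : ∀ z ∈ ball (0:ℂ) 1, ‖Q z‖ ≤ A' := by
    intro z hz
    refine Complex.norm_le_of_forall_mem_frontier_norm_le isBounded_ball ?_ hQb (subset_closure hz)
    apply Differentiable.diffContOnCl
    rw [hQ]
    fun_prop
  have hmain : ∀ K, Real.log A' < K → ∑ j, (2 * t j / L - 1) ≤ K := by
    intro K hK
    have h1 := schwarz_half hd h0 (K := K) (by
      intro z hz
      rw [hre z hz]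
      have hQ0 : 0 < ‖Q z‖ := by
        rw [norm_pos_iff, hQ]
        refine Finset.prod_ne_zero_iff.2 fun j _ => mul_ne_zero ?_ ?_
        · exact slitPlane_ne_zero (hlt z hz _ (hbn j))
        · exact slitPlane_ne_zero (hlt z hz _ (hcn j))
      exact (Real.log_le_log hQ0 (hQb' z hz)).trans_lt hK)
    have h2 : HasDerivAt h (∑ j, (-(b j) + -(conj (b j)))) 0 := by
      rw [hh]
      refine HasDerivAt.fun_sum fun j _ => ?_
      have haux : ∀ c : ℂ, HasDerivAt (fun z : ℂ => Complex.log (1 - z * c)) (-c) 0 := by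
        intro c
        have h3 : HasDerivAt (fun z : ℂ => 1 - z * c) (-c) 0 := by
          have := ((hasDerivAt_id (0:ℂ)).mul_const c).const_sub 1
          simpa using this
        have h4 := h3.clog (by simp)
        simpa using h4
      exact (haux _).add (haux _)
    rw [h2.deriv] at h1
    have h3 : ∑ j, (-(b j) + -(conj (b j))) = ((-2 * ∑ j, (2 * t j / L - 1) : ℝ) : ℂ) := by
      rw [Complex.ofReal_mul, Complex.ofReal_sum, Finset.mul_sum]
      refine Finset.sum_congr rfl fun j _ => ?_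
      rw [← hbr j]
      apply Complex.ext
      · simp
        ring
      · simp
    rw [h3, Complex.norm_real, Real.norm_eq_abs, abs_mul] at h1
    have h4 := le_abs_self (∑ j, (2 * t j / L - 1))
    have h5 : |(-2:ℝ)| = 2 := by norm_num
    rw [h5] at h1
    linarith
  have hle : ∑ j, (2 * t j / L - 1) ≤ Real.log A' := le_of_forall_gt_imp_ge_of_dense hmain
  have hlog : Real.log A' = N * Real.log (4 / L * A ^ (1 / (N:ℝ))) := by
    have h4L : (0:ℝ) < 4 / L := by positivity
    rw [hA', Real.log_mul (by positivity) hA0.ne', Real.log_mul h4L.ne' hrhs.ne', Real.log_pow,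
      Real.log_rpow hA0]
    field_simp
  have hlog2 : Real.log (4 / L * A ^ (1 / (N:ℝ))) ≤ 4 / L * A ^ (1 / (N:ℝ)) - 1 :=
    Real.log_le_sub_one_of_pos (by positivity)
  have hs : ∑ j, (2 * t j / L - 1) = 2 / L * ∑ j, t j - N := by
    rw [Finset.sum_sub_distrib, Finset.mul_sum]
    simp only [Finset.sum_const, Finset.card_univ, Fintype.card_fin, nsmul_eq_mul, mul_one]
    congr 1
    refine Finset.sum_congr rfl fun j _ => ?_
    ring
  rw [hs, hlog] at hle
  have h5 : 2 / L * ∑ j, t j ≤ N * (4 / L * A ^ (1 / (N:ℝ))) := by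
    nlinarith
  have h6 : ∑ j, t j = L / 2 * (2 / L * ∑ j, t j) := by field_simp
  rw [h6]
  calc L / 2 * (2 / L * ∑ j, t j) ≤ L / 2 * (N * (4 / L * A ^ (1 / (N:ℝ)))) :=
        mul_le_mul_of_nonneg_left h5 (by positivity)
    _ = 2 * N * A ^ (1 / (N:ℝ)) := by
        field_simp
        ring

end Pool.Agent.H88.GL
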