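import Pool.Agent.H88.GL.A
import Pool.Agent.H88.LE.CA

/-!
# GL-B: the sharp form of GL-A

If `t_j ∈ [0, L]` (`j < N`) and `∏ |y - t_j| ≤ A` on `[0, L]`, then `∑ t_j ≤ 2 N (A/2)^(1/N)`
(equality for the zeros of Chebyshev polynomials).

PROOF. `g = ∏ (X - t_j)`, `K = {z : g(z) ∈ [-A, A]}` contains `[0, L]`, hence all zeros of `g`, and its radial projection has
no gaps (open mapping). `P_0 = g`, `P_(k+1) = P_k^2 - A_k^2/2`, `A_(k+1) = A_k^2/2`: `K = {P_k ∈ [-A_k, A_k]}`. The zeros `w` of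
`P_k` lie in `K` and `∏ |y - |w|| ≤ A_k` for all `y` in the radial projection of `K`, so GL-A gives a bound for `∑ |w|`
and `∑ w = 2^k ∑ t_j`. Let `k → ∞`.
-/

set_option autoImplicit false

open Polynomial Complex Metric Set
open scoped Real ComplexConjugate

noncomputable section

namespace Pool.Agent.H88.GL

/-- `P(z) ∈ [-a, a]` -/
def InSeg (P : ℂ[X]) (a : ℝ) (z : ℂ) : Prop := ∃ x ∈ Icc (-a) a, P.eval z = (x:ℂ)

theorem InSeg.norm_le {P : ℂ[X]} {a : ℝ} {z : ℂ} (h : InSeg P a z) : ‖P.eval z‖ ≤ a := by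
  obtain ⟨x, hx, h1⟩ := h
  rw [h1, Complex.norm_real, Real.norm_eq_abs]
  exact abs_le.2 hx

theorem isCompact_inSeg {g : ℂ[X]} (hg : g.Monic) (hn : g.natDegree ≠ 0) (a : ℝ) :
    IsCompact {z | InSeg g a z} := by
  have h1 := LE.lem_compact hg hn a
  have hc : Continuous fun z : ℂ => g.eval z := by fun_prop
  have h2 : IsClosed {z | InSeg g a z} := by
    have h3 : {z | InSeg g a z} = (fun z : ℂ => g.eval z) ⁻¹' ((fun x : ℝ => (x:ℂ)) '' Icc (-a) a) := by
      ext z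
      constructor
      · rintro ⟨x, hx, h⟩
        exact ⟨x, hx, h.symm⟩
      · rintro ⟨x, hx, h⟩
        exact ⟨x, hx, h.symm⟩
    rw [h3]
    exact (isCompact_Icc.image Complex.continuous_ofReal).isClosed.preimage hc
  exact h1.of_isClosed_subset h2 fun z hz => hz.norm_le

theorem no_gap {g : ℂ[X]} (hg : g.Monic) (hn : g.natDegree ≠ 0) {a L : ℝ}
    (hroots : ∀ w, g.eval w = 0 → ∃ x : ℝ, x ∈ Icc 0 L ∧ w = x)
    (hseg : ∀ y ∈ Icc (0:ℝ) L, InSeg g a (y:ℂ))
    {w : ℂ} (hw : InSeg g a w) {y : ℝ} (hy : y ∈ Icc 0 ‖w‖) :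
    ∃ z : ℂ, ‖z‖ = y ∧ InSeg g a z := by
  by_contra hno
  push Not at hno
  set Ko : Set ℂ := {z | InSeg g a z} ∩ {z | y ≤ ‖z‖} with hKo
  have hKc : IsCompact Ko := (isCompact_inSeg hg hn a).inter_right (isClosed_le continuous_const continuous_norm)
  have hc : Continuous fun z : ℂ => ‖g.eval z‖ := by fun_prop
  obtain ⟨z1, hz1, hmin⟩ := hKc.exists_isMinOn ⟨w, hw, hy.2⟩ hc.continuousOn
  have hz1y : y < ‖z1‖ := lt_of_le_of_ne hz1.2 fun h => hno z1 h.symm hz1.1
  have hg1 : g.eval z1 ≠ 0 := by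
    intro h
    obtain ⟨x, hx, hxz⟩ := hroots z1 h
    have h1 : ‖z1‖ = x := by rw [hxz, Complex.norm_real, Real.norm_of_nonneg hx.1]
    exact hno (y:ℂ) (by rw [Complex.norm_real, Real.norm_of_nonneg hy.1])
      (hseg y ⟨hy.1, (h1 ▸ hz1y).le.trans hx.2⟩)
  obtain ⟨c, hc1, hc2⟩ := hz1.1
  have hc0 : c ≠ 0 := by
    rintro rfl
    exact hg1 (by simpa using hc2)
  have hU : IsOpen {z : ℂ | y < ‖z‖} := isOpen_lt continuous_const continuous_norm
  have han : AnalyticOnNhd ℂ (fun z => g.eval z) univ := fun z _ => AnalyticAt.aeval_polynomial analyticAt_id g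
  have hopen : IsOpen ((fun z : ℂ => g.eval z) '' {z : ℂ | y < ‖z‖}) := by
    rcases han.is_constant_or_isOpen isPreconnected_univ with ⟨v, hv⟩ | h
    · exfalso
      have h1 : g - C v = 0 := by
        apply Polynomial.funext
        intro z
        simp [hv z (mem_univ _)]
      have h2 : g = C v := sub_eq_zero.1 h1
      rw [h2] at hn
      exact hn (natDegree_C v)
    · exact h _ (subset_univ _) hU
  obtain ⟨ε, hε, hball⟩ := Metric.isOpen_iff.1 hopen _ ⟨z1, hz1y, rfl⟩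
  have hcp : 0 < |c| := abs_pos.2 hc0
  set δ : ℝ := min (1 / 2) (ε / (2 * |c|)) with hδ
  have hδ0 : 0 < δ := lt_min (by norm_num) (by positivity)
  have hδ1 : δ ≤ 1 / 2 := min_le_left _ _
  have hδ2 : |c| * δ < ε := by
    calc |c| * δ ≤ |c| * (ε / (2 * |c|)) := mul_le_mul_of_nonneg_left (min_le_right _ _) hcp.le
      _ = ε / 2 := by field_simp
      _ < ε := by linarith
  obtain ⟨z', hz'U, hz'⟩ := hball (show ((c * (1 - δ) : ℝ) : ℂ) ∈ ball (g.eval z1) ε by
    rw [mem_ball, dist_eq_norm, hc2, ← Complex.ofReal_sub, Complex.norm_real, Real.norm_eq_abs]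
    have : c * (1 - δ) - c = -(c * δ) := by ring
    rw [this, abs_neg, abs_mul, abs_of_pos hδ0]
    exact hδ2)
  have hz'2 : g.eval z' = ((c * (1 - δ) : ℝ) : ℂ) := hz'
  have hlt : |c * (1 - δ)| < |c| := by
    rw [abs_mul, abs_of_pos (by linarith : 0 < 1 - δ)]
    nlinarith
  have h3 : InSeg g a z' := ⟨c * (1 - δ), abs_le.1 (hlt.le.trans (abs_le.2 hc1)), hz'2⟩
  have h4 := hmin (show z' ∈ Ko from ⟨h3, (show y < ‖z'‖ from hz'U).le⟩)
  simp only [mem_setOf_eq] at h4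
  rw [hc2, hz'2, Complex.norm_real, Complex.norm_real, Real.norm_eq_abs, Real.norm_eq_abs] at h4
  linarith

/-- the iteration `P ↦ P^2 - a^2/2` -/
def iter (g : ℂ[X]) (a : ℝ) : ℕ → ℂ[X] × ℝ
  | 0 => (g, a)
  | k + 1 => ((iter g a k).1 ^ 2 - C (((iter g a k).2 ^ 2 / 2 : ℝ) : ℂ), (iter g a k).2 ^ 2 / 2)

theorem iter_snd (g : ℂ[X]) (a : ℝ) (k : ℕ) : (iter g a k).2 = 2 * (a / 2) ^ 2 ^ k := by
  induction k with
  | zero => simp [iter]; ring
  | succ k ih =>
    simp only [iter, ih]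
    rw [pow_succ 2 k, pow_mul (a / 2)]
    ring

theorem iter_monic {g : ℂ[X]} (hg : g.Monic) (hn : g.natDegree ≠ 0) (a : ℝ) (k : ℕ) :
    (iter g a k).1.Monic ∧ (iter g a k).1.natDegree = g.natDegree * 2 ^ k ∧
      (iter g a k).1.nextCoeff = 2 ^ k * g.nextCoeff := by
  induction k with
  | zero => simp [iter, hg]
  | succ k ih =>
    obtain ⟨h1, h2, h3⟩ := ih
    have hd0 : (iter g a k).1.natDegree ≠ 0 := by
      rw [h2]
      exact mul_ne_zero hn (pow_ne_zero _ two_ne_zero)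
    have hsq : ((iter g a k).1 ^ 2).Monic := h1.pow 2
    have hsqd : ((iter g a k).1 ^ 2).natDegree = 2 * (iter g a k).1.natDegree := h1.natDegree_pow 2
    have hlt : (C (((iter g a k).2 ^ 2 / 2 : ℝ) : ℂ)).degree < ((iter g a k).1 ^ 2).degree := by
      refine degree_C_le.trans_lt ?_
      rw [degree_eq_natDegree hsq.ne_zero, hsqd]
      exact_mod_cast Nat.mul_pos two_pos (Nat.pos_of_ne_zero hd0)
    have hnd : ((iter g a k).1 ^ 2 - C (((iter g a k).2 ^ 2 / 2 : ℝ) : ℂ)).natDegree =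
        ((iter g a k).1 ^ 2).natDegree := natDegree_sub_C
    refine ⟨hsq.sub_of_left hlt, ?_, ?_⟩
    · show ((iter g a k).1 ^ 2 - C (((iter g a k).2 ^ 2 / 2 : ℝ) : ℂ)).natDegree = _
      rw [hnd, hsqd, h2, pow_succ]
      ring
    · show ((iter g a k).1 ^ 2 - C (((iter g a k).2 ^ 2 / 2 : ℝ) : ℂ)).nextCoeff = _
      have h4 : ((iter g a k).1 ^ 2).nextCoeff = 2 ^ (k + 1) * g.nextCoeff := by
        rw [h1.nextCoeff_pow, h3, pow_succ, nsmul_eq_mul]
        push_cast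
        ring
      rw [← h4]
      rw [nextCoeff_of_natDegree_pos (by rw [hnd, hsqd]; omega),
        nextCoeff_of_natDegree_pos (by rw [hsqd]; omega), hnd, coeff_sub, coeff_C_ne_zero (by rw [hsqd]; omega), sub_zero]

theorem iter_inSeg (g : ℂ[X]) {a : ℝ} (ha : 0 < a) (k : ℕ) (z : ℂ) :
    InSeg (iter g a k).1 (iter g a k).2 z ↔ InSeg g a z := by
  induction k with
  | zero => rfl
  | succ k ih =>
    rw [← ih]
    have hA : 0 < (iter g a k).2 := by rw [iter_snd]; positivity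
    set A := (iter g a k).2 with hAdef
    set P := (iter g a k).1 with hPdef
    have e1 : (iter g a (k + 1)).1 = P ^ 2 - C ((A ^ 2 / 2 : ℝ) : ℂ) := rfl
    have e2 : (iter g a (k + 1)).2 = A ^ 2 / 2 := rfl
    rw [e1, e2]
    constructor
    · rintro ⟨x, hx, h⟩
      rw [eval_sub, eval_pow, eval_C] at h
      have h1 : P.eval z ^ 2 = ((x + A ^ 2 / 2 : ℝ) : ℂ) := by
        rw [sub_eq_iff_eq_add] at h
        rw [h]
        push_cast
        ring
      have hx0 : 0 ≤ x + A ^ 2 / 2 := by linarith [hx.1]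
      set s := Real.sqrt (x + A ^ 2 / 2) with hs
      have hs2 : s ^ 2 = x + A ^ 2 / 2 := Real.sq_sqrt hx0
      have hsA : s ≤ A := by
        apply Real.sqrt_le_iff.2 ⟨hA.le, by linarith [hx.2]⟩
      have hs0 : 0 ≤ s := Real.sqrt_nonneg _
      rw [← hs2, Complex.ofReal_pow] at h1
      rcases sq_eq_sq_iff_eq_or_eq_neg.1 h1 with h2 | h2
      · exact ⟨s, ⟨by linarith, hsA⟩, h2⟩
      · exact ⟨-s, ⟨by linarith, by linarith⟩, by rw [h2]; push_cast; rfl⟩
    · rintro ⟨x, hx, h⟩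
      have h1 : x ^ 2 ≤ A ^ 2 := by
        have := abs_le.2 hx
        rw [← sq_abs]
        exact pow_le_pow_left₀ (abs_nonneg _) this 2
      refine ⟨x ^ 2 - A ^ 2 / 2, ⟨by nlinarith, by linarith⟩, ?_⟩
      rw [eval_sub, eval_pow, eval_C, h]
      push_cast
      ring

theorem exists_fin_roots {g : ℂ[X]} (hg : g.Monic) :
    ∃ w : Fin g.natDegree → ℂ, g = ∏ j, (X - C (w j)) := by
  have h1 := (IsAlgClosed.splits g).eq_prod_roots
  rw [hg.leadingCoeff, C_1, one_mul] at h1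
  have h2 : g.roots.toList.length = g.natDegree := by
    rw [Multiset.length_toList]
    exact (IsAlgClosed.splits g).natDegree_eq_card_roots.symm
  rw [← h2]
  refine ⟨fun j => g.roots.toList.get j, ?_⟩
  conv_lhs => rw [h1]
  have h3 : g.roots = (g.roots.toList : Multiset ℂ) := (Multiset.coe_toList _).symm
  conv_lhs => rw [h3]
  rw [Multiset.map_coe, Multiset.prod_coe]
  exact (Fin.prod_univ_fun_getElem g.roots.toList fun a => X - C a).symm

theorem eval_prod_norm {M : ℕ} (w : Fin M → ℂ) (z : ℂ) :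
    ‖(∏ j, (X - C (w j)) : ℂ[X]).eval z‖ = ∏ j, ‖z - w j‖ := by
  rw [eval_prod, norm_prod]
  refine Finset.prod_congr rfl fun j _ => ?_
  simp

theorem g2 {N : ℕ} (hN : 0 < N) (t : Fin N → ℝ) {L A : ℝ} (hL : 0 ≤ L)
    (ht : ∀ j, 0 ≤ t j ∧ t j ≤ L) (hA0 : 0 < A) (hA : ∀ y ∈ Icc (0:ℝ) L, ∏ j, |y - t j| ≤ A) :
    ∑ j, t j ≤ 2 * N * (A / 2) ^ (1 / (N:ℝ)) := by
  have hN' : (0:ℝ) < N := by exact_mod_cast hN
  set g : ℂ[X] := ∏ j, (X - C ((t j : ℝ) : ℂ)) with hgdef
  have hg : g.Monic := monic_prod_of_monic _ _ fun j _ => monic_X_sub_C _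
  have hgd : g.natDegree = N := by
    rw [hgdef, natDegree_prod_of_monic _ _ fun j _ => monic_X_sub_C _]
    simp
  have hgn : g.natDegree ≠ 0 := by omega
  have hroots : ∀ w, g.eval w = 0 → ∃ x : ℝ, x ∈ Icc 0 L ∧ w = x := by
    intro w hw
    rw [hgdef, eval_prod, Finset.prod_eq_zero_iff] at hw
    obtain ⟨j, -, hj⟩ := hw
    refine ⟨t j, ht j, ?_⟩
    simpa [sub_eq_zero] using hj
  have hseg : ∀ y ∈ Icc (0:ℝ) L, InSeg g A (y:ℂ) := by
    intro y hy
    refine ⟨∏ j, (y - t j), ?_, ?_⟩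
    · rw [← mem_setOf_eq (p := fun x => x ∈ Icc (-A) A)]
      show ∏ j, (y - t j) ∈ Icc (-A) A
      rw [mem_Icc, ← abs_le, Finset.abs_prod]
      exact hA y hy
    · rw [hgdef, eval_prod]
      push_cast
      refine Finset.prod_congr rfl fun j _ => ?_
      simp
  have hstep : ∀ k : ℕ, ∑ j, t j ≤ 2 * N * ((iter g A k).2) ^ (1 / ((N * 2 ^ k : ℕ) : ℝ)) := by
    intro k
    obtain ⟨hm, hd, hc⟩ := iter_monic hg hgn A k
    have hin := fun z => iter_inSeg g hA0 k z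
    have ha0 : 0 < (iter g A k).2 := by rw [iter_snd]; positivity
    generalize (iter g A k).1 = P at *
    generalize (iter g A k).2 = a at *
    obtain ⟨w, hw⟩ := exists_fin_roots hm
    rw [hgd] at hd
    have hM : 0 < P.natDegree := by
      rw [hd]
      positivity
    -- the largest norm
    obtain ⟨j0, -, hj0⟩ := Finset.exists_max_image (Finset.univ : Finset (Fin P.natDegree)) (fun j => ‖w j‖)
      ⟨⟨0, hM⟩, Finset.mem_univ _⟩
    have hwK : ∀ j, InSeg g A (w j) := by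
      intro j
      rw [← hin]
      refine ⟨0, ⟨by linarith, by linarith⟩, ?_⟩
      have h1 : (∏ j, (X - C (w j)) : ℂ[X]).eval (w j) = 0 := by
        rw [eval_prod]
        exact Finset.prod_eq_zero (Finset.mem_univ j) (by simp)
      rw [← hw] at h1
      simpa using h1
    have hb := g1 hM (fun j => ‖w j‖) (L := ‖w j0‖) (A := a) (norm_nonneg _)
      (fun j => ⟨norm_nonneg _, hj0 j (Finset.mem_univ _)⟩) ha0 (by
        intro y hy
        obtain ⟨z, hz, hzK⟩ := no_gap hg hgn hroots hseg (hwK j0) hy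
        have h1 := ((hin z).2 hzK).norm_le
        have h2 : ‖P.eval z‖ = ∏ j, ‖z - w j‖ := by
          rw [← eval_prod_norm w z, ← hw]
        refine le_trans (Finset.prod_le_prod (fun j _ => abs_nonneg _) fun j _ => ?_) (h2 ▸ h1)
        rw [← hz]
        exact abs_norm_sub_norm_le z (w j))
    have hsum : ∑ j, w j = ((2 ^ k * ∑ j, t j : ℝ) : ℂ) := by
      have e1 : P.nextCoeff = -∑ j, w j := by
        rw [← prod_X_sub_C_nextCoeff w, ← hw]
      have e2 : g.nextCoeff = -∑ j, ((t j : ℝ) : ℂ) := prod_X_sub_C_nextCoeff _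
      rw [e1, e2] at hc
      push_cast
      have := neg_eq_iff_eq_neg.1 hc
      rw [this]
      ring
    have ht0 : 0 ≤ ∑ j, t j := Finset.sum_nonneg fun j _ => (ht j).1
    have h5 : 2 ^ k * ∑ j, t j ≤ ∑ j, ‖w j‖ := by
      have h6 := norm_sum_le Finset.univ w
      rw [hsum, Complex.norm_real, Real.norm_of_nonneg (by positivity)] at h6
      exact h6
    have h7 := h5.trans hb
    rw [hd] at h7
    push_cast at h7 ⊢
    have h2k : (0:ℝ) < 2 ^ k := by positivity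
    have h8 : 2 ^ k * ∑ j, t j ≤ 2 ^ k * (2 * N * a ^ (1 / ((N:ℝ) * 2 ^ k))) := by
      calc 2 ^ k * ∑ j, t j ≤ 2 * (N * 2 ^ k) * a ^ (1 / ((N:ℝ) * 2 ^ k)) := h7
        _ = 2 ^ k * (2 * N * a ^ (1 / ((N:ℝ) * 2 ^ k))) := by ring
    exact le_of_mul_le_mul_left h8 h2k
  -- the limit
  have hval : ∀ k : ℕ, ((iter g A k).2) ^ (1 / ((N * 2 ^ k : ℕ) : ℝ)) =
      (2:ℝ) ^ (1 / (N:ℝ) * (1 / 2) ^ k) * (A / 2) ^ (1 / (N:ℝ)) := by
    intro k
    rw [iter_snd, Real.mul_rpow (by norm_num) (by positivity), ← Real.rpow_natCast (A / 2), ← Real.rpow_mul (by positivity)]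
    congr 2
    · push_cast
      rw [one_div_pow]
      field_simp
    · push_cast
      field_simp
  have hlim : Filter.Tendsto (fun k : ℕ => 2 * N * ((2:ℝ) ^ (1 / (N:ℝ) * (1 / 2) ^ k) * (A / 2) ^ (1 / (N:ℝ))))
      Filter.atTop (nhds (2 * N * ((2:ℝ) ^ (1 / (N:ℝ) * 0) * (A / 2) ^ (1 / (N:ℝ))))) := by
    refine Filter.Tendsto.const_mul _ (Filter.Tendsto.mul_const _ ?_)
    refine (Real.continuous_const_rpow (by norm_num)).continuousAt.tendsto.comp ?_
    refine Filter.Tendsto.const_mul _ ?_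
    exact tendsto_pow_atTop_nhds_zero_of_lt_one (by norm_num) (by norm_num)
  have := ge_of_tendsto' hlim fun k => by
    rw [← hval k]
    exact hstep k
  simpa using this

end Pool.Agent.H88.GL
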