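import Pool.Agent.H88.GL.B
import Pool.Agent.H88.LE.XF

/-!
# GL-C: a compact set with few empty annuli lies in a small disc

`K` compact, `w_1, ..., w_k ∈ K`, `∏ |z - w_j| ≤ γ^k` on `K`. For `p ∈ K` let `gaps K p` be the set of all radii `r`, at most the largest
distance from `p`, which are not attained on `K`. If `gaps K p` has measure `≤ ω` for every `p ∈ K` on the boundary of a
closed disc containing `K`, then `K` lies in a closed disc of radius `2 γ (1/2)^(1/k) + ω`.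
-/

set_option autoImplicit false

open Polynomial Complex Metric Set MeasureTheory
open scoped Real ComplexConjugate

noncomputable section

namespace Pool.Agent.H88.GL

/-- the radii `r ≥ 0`, at most the largest distance from `p` to a point of `K`, of the circles around `p` which miss `K` -/
def gaps (K : Set ℂ) (p : ℂ) : Set ℝ := {r | 0 ≤ r ∧ (∃ z ∈ K, r ≤ ‖z - p‖) ∧ ∀ z ∈ K, ‖z - p‖ ≠ r}

/-- measure of `D ∩ [0, x]` -/
def Vol (D : Set ℝ) (x : ℝ) : ℝ := (volume (D ∩ Icc 0 x)).toReal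

theorem vol_fin (D : Set ℝ) (x : ℝ) : volume (D ∩ Icc 0 x) ≠ ⊤ :=
  ((measure_mono inter_subset_right).trans_lt (by simp)).ne

theorem vol_mono (D : Set ℝ) {x y : ℝ} (h : x ≤ y) : Vol D x ≤ Vol D y :=
  ENNReal.toReal_mono (vol_fin D y) (measure_mono (inter_subset_inter_right _ (Icc_subset_Icc_right h)))

theorem vol_lip (D : Set ℝ) {x y : ℝ} (h : x ≤ y) : Vol D y ≤ Vol D x + (y - x) := by
  have h1 : volume (D ∩ Icc 0 y) ≤ volume (D ∩ Icc 0 x) + volume (Icc x y) := by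
    refine (measure_mono ?_).trans (measure_union_le _ _)
    rintro z ⟨hz, hz1, hz2⟩
    rcases le_total z x with h2 | h2
    · exact Or.inl ⟨hz, hz1, h2⟩
    · exact Or.inr ⟨h2, hz2⟩
  have h2 := ENNReal.toReal_mono (ENNReal.add_ne_top.2 ⟨vol_fin D x, by simp⟩) h1
  rw [ENNReal.toReal_add (vol_fin D x) (by simp), Real.volume_Icc, ENNReal.toReal_ofReal (by linarith)] at h2
  exact h2

theorem vol_abs (D : Set ℝ) (x y : ℝ) : |Vol D x - Vol D y| ≤ |x - y| := by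
  rcases le_total x y with h | h
  · have h1 := vol_mono D h
    have h2 := vol_lip D h
    rw [abs_of_nonpos (by linarith), abs_of_nonpos (by linarith)]
    linarith
  · have h1 := vol_mono D h
    have h2 := vol_lip D h
    rw [abs_of_nonneg (by linarith), abs_of_nonneg (by linarith)]
    linarith

theorem vol_zero (D : Set ℝ) : Vol D 0 = 0 := by
  have : volume (D ∩ Icc 0 0) = 0 := by
    refine measure_mono_null inter_subset_right ?_
    simp
  rw [Vol, this]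
  rfl

theorem vol_nonneg (D : Set ℝ) (x : ℝ) : 0 ≤ Vol D x := ENNReal.toReal_nonneg

theorem vol_onto {D : Set ℝ} (hD : IsCompact D) (h0 : (0:ℝ) ∈ D) (hpos : ∀ x ∈ D, 0 ≤ x) {m : ℝ} (hm : m ∈ D)
    {y : ℝ} (hy : y ∈ Icc 0 (Vol D m)) : ∃ x ∈ D, Vol D x = y := by
  have hcont : Continuous (Vol D) := by
    have : LipschitzWith 1 (Vol D) := LipschitzWith.of_dist_le_mul fun a b => by
      simpa [Real.dist_eq] using vol_abs D a b
    exact this.continuous
  have hS : IsCompact (D ∩ {x | y ≤ Vol D x}) := hD.inter_right (isClosed_le continuous_const hcont)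
  obtain ⟨x0, hx0, hmin⟩ := hS.exists_isLeast ⟨m, hm, hy.2⟩
  refine ⟨x0, hx0.1, le_antisymm ?_ hx0.2⟩
  rcases (hpos x0 hx0.1).eq_or_lt with h | h
  · rw [← h, vol_zero]
    exact hy.1
  -- for x < x0, Vol x < y
  have key : ∀ x, 0 ≤ x → x < x0 → Vol D x ≤ y := by
    intro x hx hxx
    have hT : IsCompact (D ∩ Icc 0 x) := hD.inter_right isClosed_Icc
    obtain ⟨d, hd, hdmax⟩ := hT.exists_isGreatest ⟨0, h0, le_refl _, hx⟩
    have h1 : D ∩ Icc 0 x = D ∩ Icc 0 d := by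
      ext z
      constructor
      · intro hz
        exact ⟨hz.1, hz.2.1, hdmax hz⟩
      · rintro ⟨hz1, hz2, hz3⟩
        exact ⟨hz1, hz2, hz3.trans hd.2.2⟩
    have h2 : Vol D x = Vol D d := by rw [Vol, Vol, h1]
    rw [h2]
    by_contra h3
    push Not at h3
    have h4 := hmin (show d ∈ D ∩ {x | y ≤ Vol D x} from ⟨hd.1, h3.le⟩)
    linarith [hd.2.2]
  apply le_of_forall_pos_le_add
  intro ε hε
  have h1 := key (max 0 (x0 - ε)) (le_max_left _ _) (max_lt h (by linarith))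
  have h2 := vol_lip D (show max 0 (x0 - ε) ≤ x0 from max_le h.le (by linarith))
  have h3 := le_max_right 0 (x0 - ε)
  linarith

theorem mean_dist {K : Set ℂ} (hK : IsCompact K) {k : ℕ} (hk : 0 < k) (w : Fin k → ℂ) (hw : ∀ j, w j ∈ K)
    {γ ω : ℝ} (hγ : 0 < γ) (hprod : ∀ z ∈ K, ∏ j, ‖z - w j‖ ≤ γ ^ k) (hω : 0 ≤ ω) {p : ℂ} (hp : p ∈ K)
    (hgap : volume (gaps K p) ≤ ENNReal.ofReal ω) :
    ∑ j, ‖w j - p‖ ≤ k * (2 * γ * (1 / 2) ^ (1 / (k:ℝ)) + ω) := by
  have hk' : (0:ℝ) < k := by exact_mod_cast hk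
  set D : Set ℝ := (fun z : ℂ => ‖z - p‖) '' K with hD
  have hDc : IsCompact D := hK.image (by fun_prop)
  have h0 : (0:ℝ) ∈ D := ⟨p, hp, by simp⟩
  have hpos : ∀ x ∈ D, 0 ≤ x := by
    rintro x ⟨z, -, rfl⟩
    exact norm_nonneg _
  obtain ⟨m, hm, hmax⟩ := hDc.exists_isGreatest ⟨0, h0⟩
  have hwD : ∀ j, ‖w j - p‖ ∈ D := fun j => ⟨w j, hw j, rfl⟩
  have h1 := g2 hk (fun j => Vol D ‖w j - p‖) (L := Vol D m) (A := γ ^ k) (vol_nonneg _ _)
    (fun j => ⟨vol_nonneg _ _, vol_mono D (hmax (hwD j))⟩) (by positivity) (by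
      intro y hy
      obtain ⟨x, ⟨z, hz, hzx⟩, hxy⟩ := vol_onto hDc h0 hpos hm hy
      refine le_trans (Finset.prod_le_prod (fun j _ => abs_nonneg _) fun j _ => ?_) (hprod z hz)
      rw [← hxy]
      refine (vol_abs D _ _).trans ?_
      rw [← hzx]
      refine (abs_norm_sub_norm_le _ _).trans (le_of_eq ?_)
      congr 1
      ring)
  have h2 : ∀ j, ‖w j - p‖ ≤ Vol D ‖w j - p‖ + ω := by
    intro j
    set x := ‖w j - p‖ with hx
    have hx0 : 0 ≤ x := norm_nonneg _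
    have h3 : volume (Icc 0 x) ≤ volume (D ∩ Icc 0 x) + volume (gaps K p) := by
      refine (measure_mono ?_).trans (measure_union_le _ _)
      rintro r ⟨hr1, hr2⟩
      by_cases hr : r ∈ D
      · exact Or.inl ⟨hr, hr1, hr2⟩
      · refine Or.inr ⟨hr1, ⟨w j, hw j, hr2⟩, fun z hz h => hr ⟨z, hz, h⟩⟩
    have h4 : volume (Icc 0 x) ≤ volume (D ∩ Icc 0 x) + ENNReal.ofReal ω := h3.trans (add_le_add le_rfl hgap)
    have h5 := ENNReal.toReal_mono (ENNReal.add_ne_top.2 ⟨vol_fin D x, ENNReal.ofReal_ne_top⟩) h4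
    rw [ENNReal.toReal_add (vol_fin D x) ENNReal.ofReal_ne_top, Real.volume_Icc, ENNReal.toReal_ofReal (by linarith),
      ENNReal.toReal_ofReal hω, sub_zero] at h5
    exact h5
  have h6 : (γ ^ k / 2) ^ (1 / (k:ℝ)) = γ * (1 / 2) ^ (1 / (k:ℝ)) := by
    rw [div_eq_mul_one_div, Real.mul_rpow (by positivity) (by norm_num), ← Real.rpow_natCast γ, ← Real.rpow_mul hγ.le,
      mul_one_div_cancel hk'.ne', Real.rpow_one]
  rw [h6] at h1
  calc ∑ j, ‖w j - p‖ ≤ ∑ j, (Vol D ‖w j - p‖ + ω) := Finset.sum_le_sum fun j _ => h2 j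
    _ = ∑ j, Vol D ‖w j - p‖ + k * ω := by
        rw [Finset.sum_add_distrib]
        simp
    _ ≤ 2 * k * (γ * (1 / 2) ^ (1 / (k:ℝ))) + k * ω := by linarith
    _ = _ := by ring

theorem block {K : Set ℂ} (hK : IsCompact K) {k : ℕ} (hk : 0 < k) (w : Fin k → ℂ) (hw : ∀ j, w j ∈ K)
    {γ ω : ℝ} (hγ : 0 < γ) (hprod : ∀ z ∈ K, ∏ j, ‖z - w j‖ ≤ γ ^ k) (hω : 0 ≤ ω)
    (hgap : ∀ p ∈ K, (∃ c, ∀ z ∈ K, ‖z - c‖ ≤ ‖p - c‖) → volume (gaps K p) ≤ ENNReal.ofReal ω) :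
    ∃ c, ∀ z ∈ K, ‖z - c‖ ≤ 2 * γ * (1 / 2) ^ (1 / (k:ℝ)) + ω := by
  have hk' : (0:ℝ) < k := by exact_mod_cast hk
  obtain ⟨c, R, hR, hKR, m, q, l, hl, hl1, hqK, hqR, hlq⟩ := LE.enclosing K hK ⟨w ⟨0, hk⟩, hw _⟩
  refine ⟨c, fun z hz => (hKR z hz).trans ?_⟩
  rcases hR.eq_or_lt with hR0 | hR0
  · rw [← hR0]
    positivity
  have h1 : ∀ i, ∑ j, ‖w j - q i‖ ≤ k * (2 * γ * (1 / 2) ^ (1 / (k:ℝ)) + ω) := fun i =>
    mean_dist hK hk w hw hγ hprod hω (hqK i) (hgap _ (hqK i) ⟨c, fun z hz => (hqR i).symm ▸ hKR z hz⟩)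
  have h2 : ∀ v : ℂ, R ≤ ∑ i, l i * ‖v - q i‖ := by
    intro v
    have h3 : ∑ i, l i * (inner ℝ (q i - c) (q i - v) : ℝ) = R ^ 2 := by
      have h4 : ∀ i, l i * (inner ℝ (q i - c) (q i - v) : ℝ) =
          l i * R ^ 2 + (inner ℝ ((l i : ℝ) • (q i - c)) (c - v) : ℝ) := by
        intro i
        have : q i - v = (q i - c) + (c - v) := by ring
        rw [this, inner_add_right, real_inner_self_eq_norm_sq, hqR, real_inner_smul_left]
        ring
      rw [Finset.sum_congr rfl fun i _ => h4 i, Finset.sum_add_distrib, ← Finset.sum_mul, hl1, one_mul, ← sum_inner]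
      have h5 : ∑ i, (l i : ℝ) • (q i - c) = 0 := by
        simp only [smul_sub, Finset.sum_sub_distrib, ← Finset.sum_smul, hl1, one_smul]
        rw [sub_eq_zero, ← hlq]
        simp
      rw [h5, inner_zero_left, add_zero]
    have h4 : R ^ 2 ≤ R * ∑ i, l i * ‖v - q i‖ := by
      rw [← h3, Finset.mul_sum]
      refine Finset.sum_le_sum fun i _ => ?_
      have h5 := real_inner_le_norm (q i - c) (q i - v)
      rw [hqR, norm_sub_rev (q i) v] at h5
      calc l i * (inner ℝ (q i - c) (q i - v) : ℝ) ≤ l i * (R * ‖v - q i‖) := mul_le_mul_of_nonneg_left h5 (hl i)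
        _ = R * (l i * ‖v - q i‖) := by ring
    rw [pow_two] at h4
    exact le_of_mul_le_mul_left h4 hR0
  have h3 : k * R ≤ ∑ i, l i * ∑ j, ‖w j - q i‖ := by
    calc k * R = ∑ j : Fin k, R := by simp
      _ ≤ ∑ j, ∑ i, l i * ‖w j - q i‖ := Finset.sum_le_sum fun j _ => h2 (w j)
      _ = ∑ i, l i * ∑ j, ‖w j - q i‖ := by
          rw [Finset.sum_comm]
          simp only [Finset.mul_sum]
  have h4 : ∑ i, l i * ∑ j, ‖w j - q i‖ ≤ k * (2 * γ * (1 / 2) ^ (1 / (k:ℝ)) + ω) := by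
    calc ∑ i, l i * ∑ j, ‖w j - q i‖ ≤ ∑ i, l i * (k * (2 * γ * (1 / 2) ^ (1 / (k:ℝ)) + ω)) :=
          Finset.sum_le_sum fun i _ => mul_le_mul_of_nonneg_left (h1 i) (hl i)
      _ = _ := by rw [← Finset.sum_mul, hl1, one_mul]
  exact le_of_mul_le_mul_left (h3.trans h4) hk'

end Pool.Agent.H88.GL
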