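import Mathlib

/-!
# GL-D: `∑ 2^(1 - 1/m_i) ≤ 1` if `m_i > 0` and `∑ m_i ≤ 1`
-/

set_option autoImplicit false

open Set
open scoped Real

noncomputable section

namespace Pool.Agent.H88.GL

theorem two_rpow_ratio {u v : ℝ} (hv : 2 ≤ v) (huv : v ≤ u) : u / v ≤ 2 ^ (u - v) := by
  have h1 : (1:ℝ) / 2 ≤ Real.log 2 := by linarith [Real.log_two_gt_d9]
  have h2 : (2:ℝ) ^ (u - v) = Real.exp (Real.log 2 * (u - v)) := Real.rpow_def_of_pos (by norm_num) _
  have h3 := Real.add_one_le_exp (Real.log 2 * (u - v))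
  rw [h2]
  refine le_trans ?_ h3
  rw [div_le_iff₀ (by linarith)]
  have h4 : 0 ≤ u - v := by linarith
  have h5 : 1 / 2 * (u - v) ≤ Real.log 2 * (u - v) := mul_le_mul_of_nonneg_right h1 h4
  nlinarith

/-- `2^(-u) * u` is decreasing for `u ≥ 2` -/
theorem phi_mono {m S : ℝ} (hm : 0 < m) (hmS : m ≤ S) (hS : S ≤ 1 / 2) :
    (2:ℝ) ^ (1 - 1 / m) ≤ m / S * 2 ^ (1 - 1 / S) := by
  have hS0 : 0 < S := hm.trans_le hmS
  have h1 : 2 ≤ 1 / S := by
    rw [le_div_iff₀ hS0]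
    linarith
  have h2 : 1 / S ≤ 1 / m := one_div_le_one_div_of_le hm hmS
  have h3 := two_rpow_ratio h1 h2
  have h4 : (1 / m) / (1 / S) = S / m := by field_simp
  rw [h4] at h3
  have h5 : (2:ℝ) ^ (1 - 1 / S) = 2 ^ (1 - 1 / m) * 2 ^ (1 / m - 1 / S) := by
    rw [← Real.rpow_add (by norm_num)]
    congr 1
    ring
  rw [h5]
  have h6 : (0:ℝ) < 2 ^ (1 - 1 / m) := Real.rpow_pos_of_pos (by norm_num) _
  calc (2:ℝ) ^ (1 - 1 / m) = 2 ^ (1 - 1 / m) * (m / S * (S / m)) := by field_simp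
    _ ≤ 2 ^ (1 - 1 / m) * (m / S * 2 ^ (1 / m - 1 / S)) := by gcongr
    _ = _ := by ring

theorem phi_le {m : ℝ} (hm : 0 < m) (hm2 : m ≤ 1 / 2) : (2:ℝ) ^ (1 - 1 / m) ≤ m := by
  have h := phi_mono hm hm2 le_rfl
  have h2 : (2:ℝ) ^ (1 - 1 / ((1:ℝ) / 2)) = 1 / 2 := by
    have : (1:ℝ) - 1 / (1 / 2) = -1 := by norm_num
    rw [this, Real.rpow_neg_one]
    norm_num
  rw [h2] at h
  calc (2:ℝ) ^ (1 - 1 / m) ≤ m / (1 / 2) * (1 / 2) := h
    _ = m := by ring

theorem exp_neg_quad {s : ℝ} (hs : 0 ≤ s) : Real.exp (-s) ≤ 1 - s + s ^ 2 / 2 := by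
  have h1 := Real.quadratic_le_exp_of_nonneg hs
  have h2 : 0 < 1 + s + s ^ 2 / 2 := by positivity
  rw [Real.exp_neg]
  refine (inv_anti₀ h2 h1).trans ?_
  rw [inv_le_iff_one_le_mul₀ h2]
  nlinarith [sq_nonneg (s ^ 2)]

theorem exp_cubic {s : ℝ} (hs : 0 ≤ s) (hs1 : s ≤ 1) : Real.exp s ≤ 1 + s + s ^ 2 / 2 + s ^ 3 / 4 := by
  have h := Real.exp_bound' hs hs1 (n := 3) (by norm_num)
  have h2 : ∑ m ∈ Finset.range 3, s ^ m / (m.factorial : ℝ) = 1 + s + s ^ 2 / 2 := by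
    simp [Finset.sum_range_succ, Nat.factorial]
  rw [h2] at h
  have h3 : s ^ 3 * (((3:ℕ):ℝ) + 1) / (((3:ℕ).factorial : ℝ) * ((3:ℕ):ℝ)) = s ^ 3 * (2 / 9) := by
    norm_num [Nat.factorial]
    ring
  rw [h3] at h
  have : 0 ≤ s ^ 3 := by positivity
  linarith

theorem two_term {v : ℝ} (hv : 0 < v) (hv1 : v ≤ 1) : (2:ℝ) ^ (-v) + 2 ^ (-(1 / v)) ≤ 1 := by
  rcases le_total v (1 / 2) with h | h
  · have h1 : (2:ℝ) ^ (-(1 / v)) ≤ v / 2 := by
      have h2 := phi_le hv h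
      have h3 : (2:ℝ) ^ (1 - 1 / v) = 2 * 2 ^ (-(1 / v)) := by
        rw [sub_eq_add_neg, Real.rpow_add (by norm_num), Real.rpow_one]
      rw [h3] at h2
      linarith
    have h2 : (2:ℝ) ^ (-v) ≤ 1 - v / 2 := by
      have hc := (convexOn_rpow_left (b := 2) (by norm_num)).2 (mem_univ (0:ℝ)) (mem_univ (-1:ℝ))
        (show 0 ≤ 1 - v by linarith) hv.le (by ring)
      simp only [smul_eq_mul, mul_zero, zero_add, mul_neg, mul_one, Real.rpow_zero, Real.rpow_neg_one] at hc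
      linarith
    linarith
  · -- `v = 1 - x`
    obtain ⟨x, hx⟩ : ∃ x, x = 1 - v := ⟨_, rfl⟩
    have hv' : v = 1 - x := by linarith
    have hx0 : 0 ≤ x := by linarith
    have hx1 : x ≤ 1 / 2 := by linarith
    have hL1 := Real.log_two_gt_d9
    have hL2 := Real.log_two_lt_d9
    set L := Real.log 2 with hL
    have h1x : 0 < 1 - x := by linarith
    have e1 : (2:ℝ) ^ (-v) = 1 / 2 * Real.exp (L * x) := by
      have : -v = -1 + x := by linarith
      rw [this, Real.rpow_add (by norm_num), Real.rpow_neg_one, Real.rpow_def_of_pos (by norm_num), ← hL,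
        one_div]
    have e2 : (2:ℝ) ^ (-(1 / v)) = 1 / 2 * Real.exp (-(L * (x / (1 - x)))) := by
      have : -(1 / v) = -1 + -(x / (1 - x)) := by
        rw [hv']
        field_simp
        ring
      rw [this, Real.rpow_add (by norm_num), Real.rpow_neg_one, Real.rpow_def_of_pos (by norm_num), ← hL,
        one_div, mul_neg]
    rw [e1, e2]
    have hs1 : 0 ≤ L * x := by positivity
    have hs2 : 0 ≤ L * (x / (1 - x)) := by positivity
    have b1 := exp_cubic hs1 (by nlinarith)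
    have b2 := exp_neg_quad hs2
    have key : L * x + (L * x) ^ 2 / 2 + (L * x) ^ 3 / 4 - L * (x / (1 - x)) + (L * (x / (1 - x))) ^ 2 / 2 ≤ 0 := by
      have : L * x + (L * x) ^ 2 / 2 + (L * x) ^ 3 / 4 - L * (x / (1 - x)) + (L * (x / (1 - x))) ^ 2 / 2 =
          L * x ^ 2 / (4 * (1 - x) ^ 2) * (-4 * (1 - x) + 2 * L * (1 - x) ^ 2 + 2 * L + L ^ 2 * x * (1 - x) ^ 2) := by
        field_simp
        ring
      rw [this]
      apply mul_nonpos_of_nonneg_of_nonpos (by positivity)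
      have hq1 : L * (1 - x) ^ 2 ≤ 0.6931471808 * (1 - x) ^ 2 := mul_le_mul_of_nonneg_right hL2.le (sq_nonneg _)
      have hq2 : L ^ 2 ≤ 0.4805 := by nlinarith
      have hq3 : L ^ 2 * (x * (1 - x) ^ 2) ≤ 0.4805 * (x * (1 - x) ^ 2) := mul_le_mul_of_nonneg_right hq2 (by positivity)
      nlinarith [mul_nonneg hx0 (sq_nonneg (1 - x)), mul_nonneg hx0 (show 0 ≤ 1 / 2 - x by linarith), mul_nonneg hx0 hx0]
    linarith

theorem sum_phi {ι : Type*} [Fintype ι] (m : ι → ℝ) (hm : ∀ i, 0 < m i) (hsum : ∑ i, m i ≤ 1) :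
    ∑ i, (2:ℝ) ^ (1 - 1 / m i) ≤ 1 := by
  classical
  by_cases h : ∀ i, m i ≤ 1 / 2
  · exact (Finset.sum_le_sum fun i _ => phi_le (hm i) (h i)).trans hsum
  · push Not at h
    obtain ⟨a, ha⟩ := h
    have hsplit := Finset.add_sum_erase Finset.univ m (Finset.mem_univ a)
    have hrest : ∑ i ∈ Finset.univ.erase a, m i ≤ 1 - m a := by linarith
    rw [← Finset.add_sum_erase Finset.univ (fun i => (2:ℝ) ^ (1 - 1 / m i)) (Finset.mem_univ a)]
    have ha1 : m a ≤ 1 := by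
      have : 0 ≤ ∑ i ∈ Finset.univ.erase a, m i := Finset.sum_nonneg fun i _ => (hm i).le
      linarith
    rcases ha1.eq_or_lt with ha1 | ha1
    · have hemp : Finset.univ.erase a = ∅ := by
        by_contra hne
        obtain ⟨b, hb⟩ := Finset.nonempty_iff_ne_empty.2 hne
        have := Finset.sum_pos (s := Finset.univ.erase a) (f := m) (fun i _ => hm i) ⟨b, hb⟩
        linarith
      rw [hemp, ha1]
      simp
    · have hS0 : 0 < 1 - m a := by linarith
      have h1 : ∀ i ∈ Finset.univ.erase a, (2:ℝ) ^ (1 - 1 / m i) ≤ m i / (1 - m a) * 2 ^ (1 - 1 / (1 - m a)) := by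
        intro i hi
        have h2 : m i ≤ ∑ j ∈ Finset.univ.erase a, m j :=
          Finset.single_le_sum (fun j _ => (hm j).le) hi
        exact phi_mono (hm i) (h2.trans hrest) (by linarith)
      have h2 : ∑ i ∈ Finset.univ.erase a, (2:ℝ) ^ (1 - 1 / m i) ≤ 2 ^ (1 - 1 / (1 - m a)) := by
        refine (Finset.sum_le_sum h1).trans ?_
        rw [← Finset.sum_mul, ← Finset.sum_div]
        have h3 : (∑ i ∈ Finset.univ.erase a, m i) / (1 - m a) ≤ 1 := by
          rw [div_le_one hS0]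
          exact hrest
        have h4 : (0:ℝ) < 2 ^ (1 - 1 / (1 - m a)) := Real.rpow_pos_of_pos (by norm_num) _
        nlinarith
      have hma : 0 < m a := hm a
      have h3 := two_term (v := (1 - m a) / m a) (by positivity) (by
        rw [div_le_one hma]
        linarith)
      have e1 : -((1 - m a) / m a) = 1 - 1 / m a := by field_simp; ring
      have e2 : -(1 / ((1 - m a) / m a)) = 1 - 1 / (1 - m a) := by
        field_simp
        ring
      rw [e1, e2] at h3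
      linarith

end Pool.Agent.H88.GL
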